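import Mathlib
import Pool.Agent.H90.TI.Mods

/-!
Module IJ1: the action of a monomial matrix and a permutation on injections is a representation.
-/

namespace Pool.TI

open Pool.H73.Func Pool.H23.Schur Filter Pool.Agent.H1.AM Equiv Polynomial

namespace IJ

variable {m k j : ℕ}

theorem pai {α : Type} (p : Perm α) (x : α) : p (p⁻¹ x) = x := Equiv.apply_symm_apply p x

theorem pia {α : Type} (p : Perm α) (x : α) : p⁻¹ (p x) = x := Equiv.symm_apply_apply p x

theorem prm_mul (x y : Mon m k) : prm (x * y) = prm x * prm y := rfl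

theorem prm_one : prm (1 : Mon m k) = 1 := rfl

theorem left_mul (x y : Mon m k) (i : Fin k) :
    (((x * y).left i : ℂˣ) : ℂ) = ((x.left i : ℂˣ) : ℂ) * ((y.left ((prm x)⁻¹ i) : ℂˣ) : ℂ) := by
  have h : (x * y).left i = x.left i * y.left ((prm x)⁻¹ i) := rfl
  rw [h]
  simp

theorem left_one (i : Fin k) : (((1 : Mon m k).left i : ℂˣ) : ℂ) = 1 := by
  have h : (1 : Mon m k).left i = 1 := rfl
  rw [h]
  simp

/-- the permuted injection -/
def sh (s : Perm (Fin j)) (p : Perm (Fin k)) (f : Fin j ↪ Fin k) : Fin j ↪ Fin k :=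
  ⟨fun a => p⁻¹ (f (s a)), fun a b hab => s.injective (f.injective ((p⁻¹).injective hab))⟩

theorem sh_iff (s : Perm (Fin j)) (p : Perm (Fin k)) (f g : Fin j ↪ Fin k) :
    (∀ a, f (s a) = p (g a)) ↔ g = sh s p f := by
  constructor
  · intro h
    ext1 a
    show g a = p⁻¹ (f (s a))
    rw [h a, pia]
  · rintro rfl a
    show f (s a) = p (p⁻¹ (f (s a)))
    rw [pai]

theorem mem_range_sh (s : Perm (Fin j)) (p : Perm (Fin k)) (f : Fin j ↪ Fin k) (i : Fin k) :
    i ∈ Set.range (sh s p f) ↔ p i ∈ Set.range f := by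
  constructor
  · rintro ⟨a, ha⟩
    refine ⟨s a, ?_⟩
    rw [← ha]
    show f (s a) = p (p⁻¹ (f (s a)))
    rw [pai]
  · rintro ⟨b, hb⟩
    refine ⟨s⁻¹ b, ?_⟩
    show p⁻¹ (f (s (s⁻¹ b))) = i
    rw [pai, hb, pia]

open Classical in
theorem injRep_apply (x : Perm (Fin j) × Mon m k) (f g : Fin j ↪ Fin k) :
    injRep m k j x f g = if g = sh x.1 (prm x.2) f then
      ∏ i : Fin k, (if i ∈ Set.range f then 1 else ((x.2.left i : ℂˣ) : ℂ)) else 0 := by
  unfold injRep
  rw [Matrix.of_apply]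
  by_cases h : g = sh x.1 (prm x.2) f
  · rw [if_pos h, if_pos ((sh_iff _ _ _ _).2 h)]
  · rw [if_neg h, if_neg (fun h' => h ((sh_iff _ _ _ _).1 h'))]

theorem injRep_one : injRep m k j 1 = 1 := by
  classical
  ext f g
  rw [injRep_apply]
  have h1 : sh (1 : Perm (Fin j) × Mon m k).1 (prm (1 : Perm (Fin j) × Mon m k).2) f = f := by
    ext1 a
    rfl
  rw [h1]
  have h2 : ∏ i : Fin k, (if i ∈ Set.range f then (1 : ℂ) else
      (((1 : Perm (Fin j) × Mon m k).2.left i : ℂˣ) : ℂ)) = 1 := by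
    apply Finset.prod_eq_one
    intro i _
    split_ifs
    · rfl
    · exact left_one i
  rw [h2, Matrix.one_apply]
  by_cases h : f = g
  · rw [if_pos h.symm, if_pos h]
  · rw [if_neg (fun h' => h h'.symm), if_neg h]

theorem injRep_mul (x y : Perm (Fin j) × Mon m k) :
    injRep m k j (x * y) = injRep m k j x * injRep m k j y := by
  classical
  ext f g
  rw [Matrix.mul_apply, Finset.sum_eq_single (sh x.1 (prm x.2) f)]
  · rw [injRep_apply, injRep_apply, injRep_apply, if_pos rfl]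
    have h1 : sh (x * y).1 (prm (x * y).2) f = sh y.1 (prm y.2) (sh x.1 (prm x.2) f) := by
      ext1 a
      show (prm (x * y).2)⁻¹ (f ((x.1 * y.1) a)) = (prm y.2)⁻¹ ((prm x.2)⁻¹ (f (x.1 (y.1 a))))
      have : prm (x * y).2 = prm x.2 * prm y.2 := rfl
      rw [this, mul_inv_rev]
      rfl
    rw [h1]
    by_cases h : g = sh y.1 (prm y.2) (sh x.1 (prm x.2) f)
    · rw [if_pos h, if_pos h]
      have h2 : ∏ i : Fin k, (if i ∈ Set.range (sh x.1 (prm x.2) f) then (1 : ℂ)
          else ((y.2.left i : ℂˣ) : ℂ)) = ∏ i : Fin k, (if i ∈ Set.range f then (1 : ℂ)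
          else ((y.2.left ((prm x.2)⁻¹ i) : ℂˣ) : ℂ)) := by
        rw [← Equiv.prod_comp (prm x.2) fun i => (if i ∈ Set.range f then (1 : ℂ)
          else ((y.2.left ((prm x.2)⁻¹ i) : ℂˣ) : ℂ))]
        apply Finset.prod_congr rfl
        intro i _
        rw [pia]
        by_cases hi : prm x.2 i ∈ Set.range f
        · rw [if_pos hi, if_pos ((mem_range_sh _ _ _ _).2 hi)]
        · rw [if_neg hi, if_neg (fun h' => hi ((mem_range_sh _ _ _ _).1 h'))]
      rw [h2, ← Finset.prod_mul_distrib]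
      apply Finset.prod_congr rfl
      intro i _
      split_ifs
      · rw [mul_one]
      · exact left_mul x.2 y.2 i
    · rw [if_neg h, if_neg h, mul_zero]
  · intro b _ hb
    rw [injRep_apply, if_neg hb, zero_mul]
  · intro h
    exact absurd (Finset.mem_univ _) h

end IJ

theorem sIJ1 : SIJ1 := by
  intro m k j
  exact ⟨{ toFun := injRep m k j, map_one' := IJ.injRep_one, map_mul' := IJ.injRep_mul },
    fun x => rfl⟩

end Pool.TI
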