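import Mathlib
import Pool.Agent.H9.TI.IJ1

/-!
Module IJ2: the polynomial functor of the representation on injections.
-/

namespace Pool.TI

open Pool.H73.Func Pool.H23.Schur Filter Pool.Agent.H1.AM Equiv Polynomial

namespace IJ

section cycles

variable {α β : Type} {s : Perm α} {p : Perm β} {f : α ↪ β}

theorem zpow_rel (hf : ∀ a, f (s a) = p (f a)) (n : ℤ) (a : α) : f ((s ^ n) a) = (p ^ n) (f a) := by
  have h0 : ∀ (n : ℕ) (a : α), f ((s ^ n) a) = (p ^ n) (f a) := by
    intro n
    induction n with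
    | zero => intro a; rfl
    | succ n ih =>
      intro a
      rw [pow_succ', pow_succ', Perm.mul_apply, Perm.mul_apply, hf, ih]
  cases n with
  | ofNat n => exact h0 n a
  | negSucc n =>
    rw [zpow_negSucc, zpow_negSucc]
    apply (p ^ (n + 1)).injective
    rw [pai, ← h0, pai]

/-- the cycles of `s` as cycles of `p` -/
def cyc (hf : ∀ a, f (s a) = p (f a)) : Cyc s ↪ Cyc p where
  toFun := Quotient.map f fun a b ⟨n, hn⟩ => ⟨n, by rw [← zpow_rel hf, hn]⟩
  inj' := by
    intro q q' h
    induction q using Quotient.inductionOn with | _ a => ?_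
    induction q' using Quotient.inductionOn with | _ b => ?_
    obtain ⟨n, hn⟩ := Quotient.exact h
    refine Quotient.sound ⟨n, f.injective ?_⟩
    rw [zpow_rel hf, hn]

theorem cyc_mk (hf : ∀ a, f (s a) = p (f a)) (a : α) : cyc hf ⟦a⟧ = ⟦f a⟧ := rfl

theorem mk_eq_cyc (hf : ∀ a, f (s a) = p (f a)) (q : Cyc s) (i : β) :
    (⟦i⟧ : Cyc p) = cyc hf q ↔ ∃ a, f a = i ∧ (⟦a⟧ : Cyc s) = q := by
  induction q using Quotient.inductionOn with | _ b => ?_
  constructor
  · intro h
    obtain ⟨n, hn⟩ := Quotient.exact h.symm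
    refine ⟨(s ^ n) b, ?_, ?_⟩
    · rw [zpow_rel hf, hn]
    · exact Quotient.sound ⟨-n, by simp⟩
  · rintro ⟨a, rfl, h⟩
    rw [← h]
    rfl

theorem len_cyc (hf : ∀ a, f (s a) = p (f a)) (q : Cyc s) : len (cyc hf q) = len q := by
  unfold len
  symm
  apply Nat.card_congr
  refine Equiv.ofBijective (fun a => ⟨f a.1, (mk_eq_cyc hf q _).2 ⟨a.1, rfl, a.2⟩⟩) ⟨?_, ?_⟩
  · intro a b hab
    exact Subtype.ext (f.injective (congrArg Subtype.val hab))
  · rintro ⟨i, hi⟩
    obtain ⟨a, ha, hq⟩ := (mk_eq_cyc hf q i).1 hi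
    exact ⟨⟨a, hq⟩, Subtype.ext ha⟩

end cycles

variable {m k j : ℕ}

/-- the union of a set of cycles -/
def un {p : Perm (Fin k)} (A : Finset (Cyc p)) : Set (Fin k) := {i | (⟦i⟧ : Cyc p) ∈ A}

theorem un_inj {p : Perm (Fin k)} {A B : Finset (Cyc p)} (h : un A = un B) : A = B := by
  ext q
  induction q using Quotient.inductionOn with | _ i => ?_
  exact Set.ext_iff.1 h i

theorem range_cyc {s : Perm (Fin j)} {p : Perm (Fin k)} {f : Fin j ↪ Fin k}
    (hf : ∀ a, f (s a) = p (f a)) : Set.range f = un (Finset.univ.map (cyc hf)) := by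
  ext i
  simp only [un, Set.mem_ofPred_eq, Finset.mem_map, Finset.mem_univ, true_and, Set.mem_range]
  constructor
  · rintro ⟨a, rfl⟩
    exact ⟨⟦a⟧, rfl⟩
  · rintro ⟨q, hq⟩
    obtain ⟨a, ha, _⟩ := (mk_eq_cyc hf q i).1 hq.symm
    exact ⟨a, ha⟩

/-- if the range of `f` is a union of cycles then there is exactly one `s` -/
theorem exists_s {p : Perm (Fin k)} {f : Fin j ↪ Fin k} {A : Finset (Cyc p)}
    (h : Set.range f = un A) : ∃! s : Perm (Fin j), ∀ a, f (s a) = p (f a) := by
  have hm : ∀ i, i ∈ Set.range f ↔ p i ∈ Set.range f := by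
    intro i
    rw [h]
    have h1 : (⟦p i⟧ : Cyc p) = ⟦i⟧ :=
      Quotient.sound (Perm.sameCycle_apply_left.2 (Perm.SameCycle.refl p i))
    simp only [un, Set.mem_ofPred_eq, h1]
  have h2 : ∀ a, ∃ b, f b = p (f a) := fun a => (hm (f a)).1 ⟨a, rfl⟩
  choose g hg using h2
  have hinj : Function.Injective g := by
    intro a b hab
    apply f.injective
    apply p.injective
    rw [← hg, ← hg, hab]
  refine ⟨Equiv.ofBijective g (Finite.injective_iff_bijective.1 hinj), fun a => hg a, ?_⟩
  intro s hs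
  apply Equiv.ext
  intro a
  apply f.injective
  rw [hs a]
  exact (hg a).symm

/-- the number of injections with a given range -/
theorem card_range (T : Set (Fin k)) [Fintype {f : Fin j ↪ Fin k // Set.range f = T}] :
    Fintype.card {f : Fin j ↪ Fin k // Set.range f = T} =
      if Nat.card T = j then j.factorial else 0 := by
  classical
  let E : {f : Fin j ↪ Fin k // Set.range f = T} ≃ (Fin j ≃ T) :=
    { toFun := fun f => (Equiv.ofInjective f.1 f.1.injective).trans (Equiv.setCongr f.2)
      invFun := fun e => ⟨e.toEmbedding.trans (Function.Embedding.subtype _), by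
        ext i
        constructor
        · rintro ⟨a, rfl⟩
          exact (e a).2
        · intro hi
          exact ⟨e.symm ⟨i, hi⟩, by simp⟩⟩
      left_inv := fun f => by
        apply Subtype.ext
        ext a
        rfl
      right_inv := fun e => by
        ext a
        rfl }
  rw [Fintype.card_congr E]
  split_ifs with h
  · have h1 : Nonempty (Fin j ≃ T) := by
      have h2 : Nat.card (Fin j) = Nat.card T := by rw [h, Nat.card_eq_fintype_card, Fintype.card_fin]
      exact ⟨Fintype.equivOfCardEq (by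
        rwa [Nat.card_eq_fintype_card, Nat.card_eq_fintype_card] at h2)⟩
    obtain ⟨e⟩ := h1
    rw [Fintype.card_equiv e, Fintype.card_fin]
  · rw [Fintype.card_eq_zero_iff]
    refine ⟨fun e => h ?_⟩
    rw [← Nat.card_congr e, Nat.card_eq_fintype_card, Fintype.card_fin]

theorem card_un {p : Perm (Fin k)} (A : Finset (Cyc p)) : Nat.card (un A) = ∑ q ∈ A, len q := by
  classical
  have h1 : Nat.card (un A) = (Finset.univ.filter fun i : Fin k => (⟦i⟧ : Cyc p) ∈ A).card := by
    have h2 : Nat.card (un A) = Nat.card {i : Fin k // (⟦i⟧ : Cyc p) ∈ A} := rfl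
    rw [h2, Nat.card_eq_fintype_card, Fintype.card_subtype]
  rw [h1, Finset.card_eq_sum_card_fiberwise (f := fun i : Fin k => (⟦i⟧ : Cyc p)) (t := A)]
  · refine Finset.sum_congr rfl fun q hq => ?_
    unfold len
    rw [Nat.card_eq_fintype_card, Fintype.card_subtype, Finset.filter_filter]
    congr 1
    apply Finset.filter_congr
    intro i _
    constructor
    · exact fun h => h.2
    · exact fun h => ⟨h ▸ hq, h⟩
  · intro i hi
    simpa using hi

open Classical in
/-- the weight of a set of cycles -/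
noncomputable def wt (h : Mon m k) (n : ℕ) (X : Multiset ℂ) (A : Finset (Cyc (prm h))) : ℂ :=
  (∏ q ∈ A, psum (n * len q) X) * ∏ q ∈ Aᶜ, cyp h q

open Classical in
theorem prod_out (h : Mon m k) (A : Finset (Cyc (prm h))) :
    (∏ i : Fin k, if i ∈ un A then 1 else ((h.left i : ℂˣ) : ℂ)) =
      ∏ q ∈ Aᶜ, cyp h q := by
  have h1 : ∀ q ∈ Aᶜ, cyp h q = ∏ i : Fin k, if (⟦i⟧ : Cyc (prm h)) = q then
      ((h.left i : ℂˣ) : ℂ) else 1 := by
    intro q _
    unfold cyp
    apply Finset.prod_congr rfl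
    intro i _
    congr
  rw [Finset.prod_congr rfl h1, Finset.prod_comm]
  apply Finset.prod_congr rfl
  intro i _
  by_cases hi : (⟦i⟧ : Cyc (prm h)) ∈ A
  · rw [if_pos (show i ∈ un A from hi)]
    symm
    apply Finset.prod_eq_one
    intro q hq
    rw [if_neg]
    rintro rfl
    exact (Finset.mem_compl.1 hq) hi
  · rw [if_neg (show i ∉ un A from hi), Finset.prod_eq_single (⟦i⟧ : Cyc (prm h))]
    · rw [if_pos rfl]
    · intro q _ hq
      rw [if_neg (fun h' => hq h'.symm)]
    · intro h'
      exact absurd (Finset.mem_compl.2 hi) h'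

theorem dTr_eq (h : Mon m k) (n : ℕ) (X : Multiset ℂ) :
    dTr j h n X = ∑ A : Finset (Cyc (prm h)), if ∑ q ∈ A, len q = j then wt h n X A else 0 := by
  classical
  unfold dTr dPoly
  have h1 : (∏ q : Cyc (prm h), (C (cyp h q) + C (psum (n * len q) X) *
      (Polynomial.X : ℂ[X]) ^ len q)) = ∑ A : Finset (Cyc (prm h)),
        C (wt h n X A) * (Polynomial.X : ℂ[X]) ^ (∑ q ∈ A, len q) := by
    have h2 : ∀ q : Cyc (prm h), (C (cyp h q) + C (psum (n * len q) X) *
      (Polynomial.X : ℂ[X]) ^ len q) = C (psum (n * len q) X) *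
      (Polynomial.X : ℂ[X]) ^ len q + C (cyp h q) := fun q => add_comm _ _
    rw [Finset.prod_congr rfl fun q _ => h2 q, Finset.prod_add, Finset.powerset_univ]
    apply Finset.sum_congr rfl
    intro A _
    rw [wt, C_mul, map_prod, map_prod, Finset.prod_mul_distrib, Finset.prod_pow_eq_pow_sum,
      Finset.compl_eq_univ_sdiff]
    ring
  rw [h1, finsetSum_coeff]
  apply Finset.sum_congr rfl
  intro A _
  rw [coeff_C_mul, coeff_X_pow]
  by_cases hA : ∑ q ∈ A, len q = j
  · rw [if_pos hA, if_pos hA.symm, mul_one]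
  · rw [if_neg hA, if_neg (fun h' => hA h'.symm), mul_zero]

open Classical in
theorem term_eq (h : Mon m k) (n : ℕ) (X : Multiset ℂ) (s : Perm (Fin j)) (f : Fin j ↪ Fin k) :
    (if (∀ a, f (s a) = prm h (f a)) then
      ∏ i : Fin k, (if i ∈ Set.range f then 1 else ((h.left i : ℂˣ) : ℂ)) else 0) *
      (∏ q : Cyc s, psum (n * len q) X) = ∑ A : Finset (Cyc (prm h)),
        if (∀ a, f (s a) = prm h (f a)) ∧ Set.range f = un A then wt h n X A else 0 := by
  by_cases hf : ∀ a, f (s a) = prm h (f a)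
  · rw [if_pos hf, Finset.sum_eq_single (Finset.univ.map (cyc hf))]
    · rw [if_pos ⟨hf, range_cyc hf⟩, wt, mul_comm]
      congr 1
      · rw [Finset.prod_map]
        apply Finset.prod_congr rfl
        intro q _
        rw [len_cyc]
      · rw [← prod_out]
        apply Finset.prod_congr rfl
        intro i _
        have hi : i ∈ Set.range f ↔ i ∈ un (Finset.univ.map (cyc hf)) := by rw [range_cyc hf]
        by_cases h' : i ∈ Set.range f
        · rw [if_pos h', if_pos (hi.1 h')]
        · rw [if_neg h', if_neg (fun h'' => h' (hi.2 h''))]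
    · intro A _ hA
      rw [if_neg]
      rintro ⟨_, h2⟩
      exact hA (un_inj (h2.symm.trans (range_cyc hf)))
    · intro h'
      exact absurd (Finset.mem_univ _) h'
  · rw [if_neg hf, zero_mul]
    symm
    apply Finset.sum_eq_zero
    intro A _
    rw [if_neg (fun h' => hf h'.1)]

open Classical in
theorem count_eq (p : Perm (Fin k)) (A : Finset (Cyc p)) :
    ∑ s : Perm (Fin j), ∑ f : Fin j ↪ Fin k,
      (if (∀ a, f (s a) = p (f a)) ∧ Set.range f = un A then (1 : ℂ) else 0) =
      if ∑ q ∈ A, len q = j then (j.factorial : ℂ) else 0 := by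
  rw [Finset.sum_comm]
  have h1 : ∀ f : Fin j ↪ Fin k, (∑ s : Perm (Fin j),
      (if (∀ a, f (s a) = p (f a)) ∧ Set.range f = un A then (1 : ℂ) else 0)) =
      if Set.range f = un A then 1 else 0 := by
    intro f
    by_cases hf : Set.range f = un A
    · rw [if_pos hf]
      obtain ⟨s, hs, hs'⟩ := exists_s hf
      rw [Finset.sum_eq_single s]
      · rw [if_pos ⟨hs, hf⟩]
      · intro t _ ht
        rw [if_neg]
        rintro ⟨h2, _⟩
        exact ht (hs' t h2)
      · intro h'
        exact absurd (Finset.mem_univ _) h'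
    · rw [if_neg hf]
      apply Finset.sum_eq_zero
      intro s _
      rw [if_neg (fun h' => hf h'.2)]
  rw [Finset.sum_congr rfl fun f _ => h1 f, Finset.sum_boole]
  have h2 : (Finset.univ.filter fun f : Fin j ↪ Fin k => Set.range f = un A).card =
      if ∑ q ∈ A, len q = j then j.factorial else 0 := by
    rw [← card_un, ← card_range (un A), Fintype.card_subtype]
  rw [h2]
  split_ifs <;> simp

end IJ

theorem sIJ2 : SIJ2 := by
  classical
  intro m k j h n X
  rw [IJ.dTr_eq]
  unfold schurTr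
  have h1 : ∀ s : Perm (Fin j), (injRep m k j (s, h)).trace * (∏ q : Cyc s, psum (n * len q) X) =
      ∑ f : Fin j ↪ Fin k, ∑ A : Finset (Cyc (prm h)),
        if (∀ a, f (s a) = prm h (f a)) ∧ Set.range f = IJ.un A then IJ.wt h n X A else 0 := by
    intro s
    rw [Matrix.trace, Finset.sum_mul]
    apply Finset.sum_congr rfl
    intro f _
    rw [← IJ.term_eq]
    rfl
  rw [Finset.sum_congr rfl fun s _ => h1 s]
  have h2 : ∑ s : Perm (Fin j), ∑ f : Fin j ↪ Fin k, ∑ A : Finset (Cyc (prm h)),
      (if (∀ a, f (s a) = prm h (f a)) ∧ Set.range f = IJ.un A then IJ.wt h n X A else 0) =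
      ∑ A : Finset (Cyc (prm h)), IJ.wt h n X A * ∑ s : Perm (Fin j), ∑ f : Fin j ↪ Fin k,
        (if (∀ a, f (s a) = prm h (f a)) ∧ Set.range f = IJ.un A then (1 : ℂ) else 0) := by
    have h3 : ∀ s : Perm (Fin j), ∑ f : Fin j ↪ Fin k, ∑ A : Finset (Cyc (prm h)),
      (if (∀ a, f (s a) = prm h (f a)) ∧ Set.range f = IJ.un A then IJ.wt h n X A else 0) =
      ∑ A : Finset (Cyc (prm h)), ∑ f : Fin j ↪ Fin k,
      (if (∀ a, f (s a) = prm h (f a)) ∧ Set.range f = IJ.un A then IJ.wt h n X A else 0) :=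
      fun s => Finset.sum_comm
    rw [Finset.sum_congr rfl fun s _ => h3 s, Finset.sum_comm]
    apply Finset.sum_congr rfl
    intro A _
    rw [Finset.mul_sum]
    apply Finset.sum_congr rfl
    intro s _
    rw [Finset.mul_sum]
    apply Finset.sum_congr rfl
    intro f _
    rw [mul_ite, mul_one, mul_zero]
  rw [h2, Finset.mul_sum]
  apply Finset.sum_congr rfl
  intro A _
  rw [IJ.count_eq]
  by_cases hA : ∑ q ∈ A, len q = j
  · rw [if_pos hA, if_pos hA]
    have hj : (j.factorial : ℂ) ≠ 0 := by exact_mod_cast j.factorial_ne_zero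
    field_simp
  · rw [if_neg hA, if_neg hA, mul_zero, mul_zero]

end Pool.TI
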